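import Pool.Agent.P.MP_8eee4e_co.Basic

namespace Pool.Agent.P.MP_8eee4e_co

open Set MeasureTheory

/-- the grid lines `t + j`, `j < 4`, that meet the half-open interval `[x, x + a)` -/
noncomputable def J (x a t : ℝ) : Finset ℕ :=
  (Finset.range 4).filter fun j => t + j ∈ Set.Ico x (x + a)

lemma card_J (x a t : ℝ) :
    ((J x a t).card : ℝ) =
      ∑ j ∈ Finset.range 4, (Set.Ico x (x + a)).indicator (fun _ => (1 : ℝ)) (t + j) := by
  classical
  rw [J, Finset.card_filter]
  push_cast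
  refine Finset.sum_congr rfl fun j _ => ?_
  rw [Set.indicator_apply]

lemma ind_int (x a u v : ℝ) :
    IntervalIntegrable ((Set.Ico x (x + a)).indicator fun _ => (1 : ℝ)) volume u v := by
  apply Integrable.intervalIntegrable
  rw [integrable_indicator_iff measurableSet_Ico]
  exact integrableOn_const (by simp)

lemma ind_int' (x a j : ℝ) :
    IntervalIntegrable (fun t => (Set.Ico x (x + a)).indicator (fun _ => (1 : ℝ)) (t + j))
      volume 0 1 := by
  have := (ind_int x a j (1 + j)).comp_add_right j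
  simpa using this

lemma int_J (x a : ℝ) : IntervalIntegrable (fun t => ((J x a t).card : ℝ)) volume 0 1 := by
  simp only [card_J]
  have := IntervalIntegrable.sum (Finset.range 4)
    (f := fun (j : ℕ) t => (Set.Ico x (x + a)).indicator (fun _ => (1 : ℝ)) (t + j))
    (fun j _ => ind_int' x a j)
  rwa [Finset.sum_fn] at this

lemma integral_J {x a : ℝ} (hx : 0 ≤ x) (ha : 0 ≤ a) (h4 : x + a ≤ 4) :
    ∫ t in (0 : ℝ)..1, ((J x a t).card : ℝ) = a := by
  simp only [card_J]
  rw [intervalIntegral.integral_finsetSum (fun (j : ℕ) _ => ind_int' x a j)]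
  simp only [intervalIntegral.integral_comp_add_right
    (fun t => (Set.Ico x (x + a)).indicator (fun _ => (1 : ℝ)) t)]
  have h := intervalIntegral.sum_integral_adjacent_intervals (μ := volume)
    (f := (Set.Ico x (x + a)).indicator fun _ => (1 : ℝ)) (a := fun j : ℕ => (j : ℝ)) (n := 4)
    (fun k _ => ind_int x a _ _)
  have e : ∑ j ∈ Finset.range 4, ∫ t in (0 + (j : ℝ))..(1 + (j : ℝ)),
      (Set.Ico x (x + a)).indicator (fun _ => (1 : ℝ)) t =
      ∑ j ∈ Finset.range 4, ∫ t in (j : ℝ)..((j + 1 : ℕ) : ℝ),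
      (Set.Ico x (x + a)).indicator (fun _ => (1 : ℝ)) t := by
    refine Finset.sum_congr rfl fun j _ => ?_
    congr 1
    · simp
    · push_cast; ring
  rw [e, h, intervalIntegral.integral_of_le (by norm_num), integral_Ioc_eq_integral_Ioo,
    ← integral_Ico_eq_integral_Ioo, setIntegral_indicator measurableSet_Ico]
  have : Set.Ico ((0 : ℕ) : ℝ) ((4 : ℕ) : ℝ) ∩ Set.Ico x (x + a) = Set.Ico x (x + a) := by
    apply Set.inter_eq_right.2
    apply Set.Ico_subset_Ico <;> simpa
  rw [this]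
  simp [ha]

lemma exists_good {ι : Type} [Fintype ι] (x a : ι → ℝ) (hx : ∀ i, 0 ≤ x i) (ha : ∀ i, 0 ≤ a i)
    (h4 : ∀ i, x i + a i ≤ 4) (h : 16 < ∑ i, a i) :
    ∃ t ∈ Set.Ico (0 : ℝ) 1, 17 ≤ ∑ i, (J (x i) (a i) t).card := by
  by_contra hn
  push Not at hn
  have hint : IntervalIntegrable (fun t => ∑ i, ((J (x i) (a i) t).card : ℝ)) volume 0 1 := by
    have := IntervalIntegrable.sum Finset.univ
      (f := fun i t => ((J (x i) (a i) t).card : ℝ)) (fun i _ => int_J (x i) (a i))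
    rwa [Finset.sum_fn] at this
  have h1 : ∫ t in (0 : ℝ)..1, ∑ i, ((J (x i) (a i) t).card : ℝ) ≤ ∫ _ in (0 : ℝ)..1, (16 : ℝ) := by
    apply intervalIntegral.integral_mono_on_of_le_Ioo zero_le_one hint (by simp)
    intro t ht
    have := hn t ⟨ht.1.le, ht.2⟩
    have h2 : ∑ i, (J (x i) (a i) t).card ≤ 16 := by omega
    exact_mod_cast h2
  rw [intervalIntegral.integral_finsetSum (fun i _ => int_J (x i) (a i))] at h1
  rw [Finset.sum_congr rfl fun i _ => integral_J (hx i) (ha i) (h4 i)] at h1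
  simp at h1
  linarith

lemma J_le_one {x a t : ℝ} (ha : a ≤ 1) : (J x a t).card ≤ 1 := by
  rw [Finset.card_le_one]
  intro j hj l hl
  simp only [J, Finset.mem_filter, Set.mem_Ico] at hj hl
  have h1 : (j : ℝ) < l + 1 := by linarith [hj.2.2, hl.2.1]
  have h2 : (l : ℝ) < j + 1 := by linarith [hj.2.1, hl.2.2]
  have h1' : j < l + 1 := by exact_mod_cast h1
  have h2' : l < j + 1 := by exact_mod_cast h2
  omega

lemma one_le_J {x a t : ℝ} (ha : 1 ≤ a) (hx : 0 ≤ x) (h4 : x + a ≤ 4) (ht : t ∈ Set.Ico (0 : ℝ) 1) :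
    1 ≤ (J x a t).card := by
  rw [Finset.one_le_card]
  refine ⟨⌈x - t⌉₊, ?_⟩
  have h1 := Nat.le_ceil (x - t)
  have h2 : (⌈x - t⌉₊ : ℝ) < x - t + 1 := by
    rcases le_or_gt 0 (x - t) with h | h
    · exact Nat.ceil_lt_add_one h
    · rw [Nat.ceil_eq_zero.2 h.le]; push_cast; linarith [ht.2]
  simp only [J, Finset.mem_filter, Set.mem_Ico, Finset.mem_range]
  refine ⟨?_, by linarith, by linarith⟩
  have : (⌈x - t⌉₊ : ℝ) < (4 : ℕ) := by push_cast; linarith [ht.1]
  exact_mod_cast this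

/-- Baek-Koizumi-Ueoro bound: 17 axis-parallel squares in a square of side 4 have side sum at
most 16 -/
theorem bku {ι : Type} [Fintype ι] (hcard : Fintype.card ι = 17) (x y a : ι → ℝ)
    (ha : ∀ i, 0 ≤ a i) (hx : ∀ i, 0 ≤ x i) (hx4 : ∀ i, x i + a i ≤ 4)
    (hy : ∀ i, 0 ≤ y i) (hy4 : ∀ i, y i + a i ≤ 4)
    (hdis : ∀ i j, i ≠ j → ∀ u v : ℝ, u ∈ Set.Ico (x i) (x i + a i) → v ∈ Set.Ico (y i) (y i + a i) →
      u ∈ Set.Ico (x j) (x j + a j) → v ∈ Set.Ico (y j) (y j + a j) → False) :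
    ∑ i, a i ≤ 16 := by
  classical
  by_contra hn
  push Not at hn
  obtain ⟨t, ht, h1⟩ := exists_good x a hx ha hx4 hn
  obtain ⟨s, hs, h2⟩ := exists_good y a hy ha hy4 hn
  have h3 : ∑ i, (J (x i) (a i) t ×ˢ J (y i) (a i) s).card ≤ 16 := by
    rw [← Finset.card_biUnion]
    · have : (Finset.univ.biUnion fun i => J (x i) (a i) t ×ˢ J (y i) (a i) s) ⊆
          Finset.range 4 ×ˢ Finset.range 4 := by
        apply Finset.biUnion_subset.2
        intro i _
        exact Finset.product_subset_product (Finset.filter_subset _ _) (Finset.filter_subset _ _)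
      simpa using Finset.card_le_card this
    · intro i _ j _ hij
      rw [Function.onFun, Finset.disjoint_left]
      intro p hp hq
      simp only [J, Finset.mem_product, Finset.mem_filter] at hp hq
      exact hdis i j hij _ _ hp.1.2 hp.2.2 hq.1.2 hq.2.2
  have h4 : ∀ i, (J (x i) (a i) t).card + (J (y i) (a i) s).card ≤
      (J (x i) (a i) t ×ˢ J (y i) (a i) s).card + 1 := by
    intro i
    rw [Finset.card_product]
    rcases le_total (a i) 1 with h | h
    · have g1 := J_le_one (x := x i) (t := t) h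
      have g2 := J_le_one (x := y i) (t := s) h
      generalize (J (x i) (a i) t).card = p at *
      generalize (J (y i) (a i) s).card = q at *
      interval_cases p <;> interval_cases q <;> simp
    · have g1 := one_le_J h (hx i) (hx4 i) ht
      have g2 := one_le_J h (hy i) (hy4 i) hs
      generalize (J (x i) (a i) t).card = p at *
      generalize (J (y i) (a i) s).card = q at *
      obtain ⟨p, rfl⟩ := Nat.exists_eq_add_of_le g1
      obtain ⟨q, rfl⟩ := Nat.exists_eq_add_of_le g2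
      nlinarith [Nat.zero_le (p * q)]
  have h5 := Finset.sum_le_sum fun i (_ : i ∈ Finset.univ) => h4 i
  rw [Finset.sum_add_distrib, Finset.sum_add_distrib] at h5
  simp only [Finset.sum_const, Finset.card_univ, hcard, smul_eq_mul] at h5
  omega

/-- squares that belong to a tiling of the unit square: any 17 of them have side sum at most 4 -/
theorem tiling_bound {κ : Type} [Finite κ] (x y c s a : κ → ℝ)
    (hu : ∀ i, c i ^ 2 + s i ^ 2 = 1) (ha : ∀ i, 0 ≤ a i)
    (hsub : ∀ i, sq (x i) (y i) (c i) (s i) (a i) ⊆ U)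
    (hdis : Pairwise fun i j => Disjoint (interior (sq (x i) (y i) (c i) (s i) (a i)))
      (interior (sq (x j) (y j) (c j) (s j) (a j))))
    (hcov : ∀ p ∈ U, ∃ i, p ∈ sq (x i) (y i) (c i) (s i) (a i))
    (e : Fin 17 → κ) (he : Function.Injective e) : ∑ i, a (e i) ≤ 4 := by
  choose q hq1 hq2 hq3 hq4 using fun i => normalize (x := x i) (y := y i) (a i) (hu i)
  simp only [hq4] at hsub hdis hcov
  have hax := axis_of_tiling (fun i => (q i).1) (fun i => (q i).2.1) (fun i => (q i).2.2.1)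
    (fun i => (q i).2.2.2) a hq1 hq2 hq3 hsub hdis hcov
  have hc1 : ∀ i, 0 < a i → (q i).2.2.1 = 1 := by
    intro i hi
    have h1 := hq1 i
    have h2 := hq2 i
    rw [hax i hi] at h1
    nlinarith
  have h0 : ∀ i, ((q i).1, (q i).2.1) ∈ U := fun i =>
    hsub i ⟨0, ⟨le_rfl, ha i⟩, 0, ⟨le_rfl, ha i⟩, by simp⟩
  have h1 : ∀ i, ((q i).1 + a i, (q i).2.1 + a i) ∈ U := by
    intro i
    rcases (ha i).eq_or_lt with h | h
    · rw [← h]; simpa using h0 i
    · exact hsub i ⟨a i, ⟨ha i, le_rfl⟩, a i, ⟨ha i, le_rfl⟩, by simp [hax i h, hc1 i h]⟩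
  have := bku (ι := Fin 17) (by simp) (fun i => 4 * (q (e i)).1) (fun i => 4 * (q (e i)).2.1)
    (fun i => 4 * a (e i)) (fun i => by linarith [ha (e i)])
    (fun i => by linarith [(h0 (e i)).1.1]) (fun i => by linarith [(h1 (e i)).1.2])
    (fun i => by linarith [(h0 (e i)).2.1]) (fun i => by linarith [(h1 (e i)).2.2]) ?_
  · rw [← Finset.mul_sum] at this
    linarith
  intro i j hij u v ⟨g1, g2⟩ ⟨g3, g4⟩ ⟨g5, g6⟩ ⟨g7, g8⟩
  have hi : 0 < a (e i) := by linarith
  have hj : 0 < a (e j) := by linarith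
  obtain ⟨d, hd0, hd1, hd2, hd3, hd4⟩ : ∃ d, 0 < d ∧ u + d < 4 * (q (e i)).1 + 4 * a (e i) ∧
      v + d < 4 * (q (e i)).2.1 + 4 * a (e i) ∧ u + d < 4 * (q (e j)).1 + 4 * a (e j) ∧
      v + d < 4 * (q (e j)).2.1 + 4 * a (e j) := by
    have hc : Filter.Tendsto (fun d : ℝ => d) (nhdsWithin 0 (Set.Ioi 0)) (nhds 0) :=
      nhdsWithin_le_nhds
    have k1 := hc.eventually (gt_mem_nhds (sub_pos.2 g2))
    have k2 := hc.eventually (gt_mem_nhds (sub_pos.2 g4))
    have k3 := hc.eventually (gt_mem_nhds (sub_pos.2 g6))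
    have k4 := hc.eventually (gt_mem_nhds (sub_pos.2 g8))
    obtain ⟨d, ⟨⟨⟨m1, m2⟩, m3⟩, m4⟩, m5⟩ :=
      ((((k1.and k2).and k3).and k4).and self_mem_nhdsWithin).exists
    exact ⟨d, m5, by linarith, by linarith, by linarith, by linarith⟩
  have hd := Set.disjoint_left.1 (hdis (he.ne hij))
  refine @hd ((u + d) / 4, (v + d) / 4) ?_ ?_
  · apply mem_interior_sq (hq1 _) <;>
      simp only [hax _ hi, hc1 _ hi, mul_one, mul_zero, add_zero, zero_add] <;> linarith
  · apply mem_interior_sq (hq1 _) <;>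
      simp only [hax _ hj, hc1 _ hj, mul_one, mul_zero, add_zero, zero_add] <;> linarith

end Pool.Agent.P.MP_8eee4e_co
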