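import Mathlib

namespace Pool.Agent.P.MP_8eee4e_co

open Set Filter Topology

/-- closed square with corner `(x,y)`, unit direction `(c,s)` and side `a` -/
def sq (x y c s a : ℝ) : Set (ℝ × ℝ) :=
  {p | ∃ α ∈ Set.Icc 0 a, ∃ β ∈ Set.Icc 0 a, p = (x + α * c - β * s, y + α * s + β * c)}

def U : Set (ℝ × ℝ) := Set.Icc 0 1 ×ˢ Set.Icc 0 1

lemma mem_sq {x y c s a : ℝ} (h : c ^ 2 + s ^ 2 = 1) (p : ℝ × ℝ) :
    p ∈ sq x y c s a ↔ (0 ≤ (p.1 - x) * c + (p.2 - y) * s ∧ (p.1 - x) * c + (p.2 - y) * s ≤ a) ∧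
      (0 ≤ -(p.1 - x) * s + (p.2 - y) * c ∧ -(p.1 - x) * s + (p.2 - y) * c ≤ a) := by
  constructor
  · rintro ⟨α, ⟨h1, h2⟩, β, ⟨h3, h4⟩, rfl⟩
    have e1 : (x + α * c - β * s - x) * c + (y + α * s + β * c - y) * s = α := by
      linear_combination α * h
    have e2 : -(x + α * c - β * s - x) * s + (y + α * s + β * c - y) * c = β := by
      linear_combination β * h
    simp only [e1, e2]
    exact ⟨⟨h1, h2⟩, h3, h4⟩
  · rintro ⟨h1, h2⟩
    refine ⟨_, h1, _, h2, ?_⟩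
    ext
    · simp only
      linear_combination (-(p.1 - x)) * h
    · simp only
      linear_combination (-(p.2 - y)) * h

lemma isClosed_sq {x y c s a : ℝ} (h : c ^ 2 + s ^ 2 = 1) : IsClosed (sq x y c s a) := by
  have : sq x y c s a = {p : ℝ × ℝ | (0 ≤ (p.1 - x) * c + (p.2 - y) * s ∧
      (p.1 - x) * c + (p.2 - y) * s ≤ a) ∧
      (0 ≤ -(p.1 - x) * s + (p.2 - y) * c ∧ -(p.1 - x) * s + (p.2 - y) * c ≤ a)} := by
    ext p; exact mem_sq h p
  rw [this]
  simp only [Set.ofPred_and]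
  refine IsClosed.inter (IsClosed.inter (isClosed_le ?_ ?_) (isClosed_le ?_ ?_))
    (IsClosed.inter (isClosed_le ?_ ?_) (isClosed_le ?_ ?_)) <;> fun_prop

lemma mem_interior_sq {x y c s a : ℝ} (h : c ^ 2 + s ^ 2 = 1) (p : ℝ × ℝ)
    (h1 : 0 < (p.1 - x) * c + (p.2 - y) * s) (h2 : (p.1 - x) * c + (p.2 - y) * s < a)
    (h3 : 0 < -(p.1 - x) * s + (p.2 - y) * c) (h4 : -(p.1 - x) * s + (p.2 - y) * c < a) :
    p ∈ interior (sq x y c s a) := by
  rw [mem_interior]
  refine ⟨{p : ℝ × ℝ | (0 < (p.1 - x) * c + (p.2 - y) * s ∧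
      (p.1 - x) * c + (p.2 - y) * s < a) ∧
      (0 < -(p.1 - x) * s + (p.2 - y) * c ∧ -(p.1 - x) * s + (p.2 - y) * c < a)}, ?_, ?_,
      ⟨⟨h1, h2⟩, h3, h4⟩⟩
  · rintro q ⟨⟨g1, g2⟩, g3, g4⟩
    exact (mem_sq h q).2 ⟨⟨g1.le, g2.le⟩, g3.le, g4.le⟩
  · simp only [Set.ofPred_and]
    refine IsOpen.inter (IsOpen.inter (isOpen_lt ?_ ?_) (isOpen_lt ?_ ?_))
      (IsOpen.inter (isOpen_lt ?_ ?_) (isOpen_lt ?_ ?_)) <;> fun_prop

lemma sq_rot (x y c s a : ℝ) : sq x y c s a = sq (x + a * c) (y + a * s) (-s) c a := by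
  ext p
  constructor
  · rintro ⟨α, ⟨h1, h2⟩, β, hb, rfl⟩
    refine ⟨β, hb, a - α, ⟨by linarith, by linarith⟩, ?_⟩
    ext <;> simp only <;> ring
  · rintro ⟨α, ha, β, ⟨h1, h2⟩, rfl⟩
    refine ⟨a - β, ⟨by linarith, by linarith⟩, α, ha, ?_⟩
    ext <;> simp only <;> ring

lemma normalize {x y c s : ℝ} (a : ℝ) (h : c ^ 2 + s ^ 2 = 1) :
    ∃ q : ℝ × ℝ × ℝ × ℝ, q.2.2.1 ^ 2 + q.2.2.2 ^ 2 = 1 ∧ 0 < q.2.2.1 ∧ 0 ≤ q.2.2.2 ∧
      sq x y c s a = sq q.1 q.2.1 q.2.2.1 q.2.2.2 a := by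
  by_cases h1 : 0 < c ∧ 0 ≤ s
  · exact ⟨(x, y, c, s), h, h1.1, h1.2, rfl⟩
  by_cases h2 : s < 0 ∧ 0 ≤ c
  · exact ⟨(_, _, -s, c), by simp only; linarith, by simp only; linarith [h2.1], h2.2,
      sq_rot x y c s a⟩
  by_cases h3 : c < 0 ∧ s ≤ 0
  · exact ⟨(_, _, -c, -s), by simp only; linarith, by simp only; linarith [h3.1],
      by simp only; linarith [h3.2], (sq_rot x y c s a).trans (sq_rot _ _ _ _ a)⟩
  have h4 : 0 < s ∧ c ≤ 0 := by
    push Not at h1 h2 h3
    rcases lt_trichotomy c 0 with hc | hc | hc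
    · exact ⟨h3 hc, hc.le⟩
    · rcases lt_trichotomy s 0 with hs | hs | hs
      · have := h2 hs; linarith
      · rw [hc, hs] at h; norm_num at h
      · exact ⟨hs, hc.le⟩
    · have := h1 hc; have := h2 this; linarith
  exact ⟨(_, _, - -s, -c), by simp only; linarith, by simp only; linarith [h4.1],
      by simp only; linarith [h4.2],
      ((sq_rot x y c s a).trans (sq_rot _ _ _ _ a)).trans (sq_rot _ _ _ _ a)⟩

/-- in a tiling of the unit square by finitely many squares, every square of positive side is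
axis-parallel -/
theorem axis_of_tiling {ι : Type} [Finite ι] (x y c s a : ι → ℝ)
    (hu : ∀ i, c i ^ 2 + s i ^ 2 = 1) (hc : ∀ i, 0 < c i) (hs : ∀ i, 0 ≤ s i)
    (hsub : ∀ i, sq (x i) (y i) (c i) (s i) (a i) ⊆ U)
    (hdis : Pairwise fun i j => Disjoint (interior (sq (x i) (y i) (c i) (s i) (a i)))
      (interior (sq (x j) (y j) (c j) (s j) (a j))))
    (hcov : ∀ p ∈ U, ∃ i, p ∈ sq (x i) (y i) (c i) (s i) (a i)) :
    ∀ i, 0 < a i → s i = 0 := by
  by_contra hcon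
  push Not at hcon
  obtain ⟨i0, hi0⟩ := hcon
  obtain ⟨i, ⟨hai, hsi⟩, hmin⟩ := Set.exists_min_image {i | 0 < a i ∧ s i ≠ 0} y
    (Set.toFinite _) ⟨i0, hi0⟩
  have hsi' : 0 < s i := lt_of_le_of_ne (hs i) (Ne.symm hsi)
  have hci := hc i
  have hui := hu i
  set Q : ℝ → ℝ × ℝ := fun e => (x i + e * c i, y i + e * s i / 2) with hQ
  have hQc : Tendsto Q (𝓝[>] 0) (𝓝 (x i, y i)) := by
    have : Continuous Q := by fun_prop
    have h2 := this.tendsto 0
    simp only [hQ, zero_mul, add_zero, zero_div] at h2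
    exact h2.mono_left nhdsWithin_le_nhds
  have hev : ∀ᶠ e in 𝓝[>] (0 : ℝ), ∀ j, (x i, y i) ∉ sq (x j) (y j) (c j) (s j) (a j) →
      Q e ∉ sq (x j) (y j) (c j) (s j) (a j) := by
    rw [eventually_all]
    intro j
    by_cases hj : (x i, y i) ∈ sq (x j) (y j) (c j) (s j) (a j)
    · exact Eventually.of_forall fun e h => absurd hj h
    · have := hQc.eventually ((isClosed_sq (a := a j) (x := x j) (y := y j) (hu j)).isOpen_compl.mem_nhds hj)
      exact this.mono fun e h _ => h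
  obtain ⟨e, he1, he2, he3⟩ := (hev.and (Ioo_mem_nhdsGT hai)).exists
  have hP : (x i, y i) ∈ U := hsub i ⟨0, ⟨le_rfl, hai.le⟩, 0, ⟨le_rfl, hai.le⟩, by simp⟩
  have hP2 : (x i + a i * c i, y i + a i * s i) ∈ U :=
    hsub i ⟨a i, ⟨hai.le, le_rfl⟩, 0, ⟨le_rfl, hai.le⟩, by simp⟩
  have hQU : Q e ∈ U := by
    obtain ⟨⟨g1, g2⟩, g3, g4⟩ := hP
    obtain ⟨⟨g5, g6⟩, g7, g8⟩ := hP2
    simp only at g1 g2 g3 g4 g5 g6 g7 g8
    refine ⟨⟨?_, ?_⟩, ?_, ?_⟩ <;> simp only [hQ] <;> nlinarith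
  obtain ⟨j, hj⟩ := hcov _ hQU
  have hPj : (x i, y i) ∈ sq (x j) (y j) (c j) (s j) (a j) := by
    by_contra h
    exact he1 j h hj
  have hij : i ≠ j := by
    rintro rfl
    have := ((mem_sq hui _).1 hj).2.1
    simp only [hQ] at this
    nlinarith [mul_pos he2 (mul_pos hci hsi')]
  have hcj := hc j
  have huj := hu j
  have hc1 : c i ≤ 1 := by nlinarith
  have hs1 : s i ≤ 1 := by nlinarith
  by_cases hsj : s j = 0
  · have hcj1 : c j = 1 := by rw [hsj] at huj; nlinarith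
    have g1 := (mem_sq huj _).1 hj
    have g2 := (mem_sq huj _).1 hPj
    simp only [hQ, hsj, hcj1, mul_one, mul_zero, add_zero, zero_add] at g1 g2
    have hec : 0 < e * c i := mul_pos he2 hci
    have hes : 0 < e * s i := mul_pos he2 hsi'
    have hz1 : (x i + e / 8 * c i, y i + e / 4 * s i) ∈ interior (sq (x i) (y i) (c i) (s i) (a i)) := by
      apply mem_interior_sq hui <;> simp only
      · nlinarith [mul_pos hec hci, mul_pos hes hsi']
      · nlinarith [mul_pos he2 (mul_pos hci hci), mul_pos he2 (mul_pos hsi' hsi')]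
      · nlinarith [mul_pos hec hsi']
      · nlinarith [mul_pos hec hsi', mul_le_mul hc1 hs1 hsi'.le zero_le_one]
    have hz2 : (x i + e / 8 * c i, y i + e / 4 * s i) ∈ interior (sq (x j) (y j) (c j) (s j) (a j)) := by
      apply mem_interior_sq huj <;> simp only [hsj, hcj1, mul_one, mul_zero, add_zero, zero_add] <;>
        linarith [g1.1.2, g1.2.2, g2.1.1, g2.2.1]
    exact Set.disjoint_left.1 (hdis hij) hz1 hz2
  · have hsj' : 0 < s j := lt_of_le_of_ne (hs j) (Ne.symm hsj)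
    have haj : 0 < a j := by
      obtain ⟨α, ⟨h1, h2⟩, β, ⟨h3, h4⟩, h5⟩ := hj
      obtain ⟨α', ⟨h1', h2'⟩, β', ⟨h3', h4'⟩, h5'⟩ := hPj
      by_contra hn
      have e1 : α = 0 := by linarith
      have e2 : β = 0 := by linarith
      have e3 : α' = 0 := by linarith
      have e4 : β' = 0 := by linarith
      rw [e1, e2] at h5
      rw [e3, e4, ← h5] at h5'
      have := congrArg Prod.fst h5'
      simp only [hQ] at this
      nlinarith [mul_pos he2 hci]
    have hy := hmin j ⟨haj, hsj⟩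
    obtain ⟨α, ⟨h1, h2⟩, β, ⟨h3, h4⟩, h5⟩ := hPj
    have e1 := congrArg Prod.fst h5
    have e2 := congrArg Prod.snd h5
    simp only at e1 e2
    have hα : α = 0 := by
      by_contra hn
      have : 0 < α := lt_of_le_of_ne h1 (Ne.symm hn)
      nlinarith [mul_pos this hsj', mul_nonneg h3 hcj.le]
    have hβ : β = 0 := by
      by_contra hn
      have : 0 < β := lt_of_le_of_ne h3 (Ne.symm hn)
      nlinarith [mul_pos this hcj, mul_nonneg h1 hsj'.le]
    rw [hα, hβ] at e1 e2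
    have ex : x j = x i := by linarith
    have ey : y j = y i := by linarith
    have hc2 : c j ≤ 1 := by nlinarith
    have hs2 : s j ≤ 1 := by nlinarith
    obtain ⟨d, hd0, hd1, hd2⟩ : ∃ d, 0 < d ∧ d < a i ∧ d < a j :=
      ⟨min (a i) (a j) / 2, by positivity, by linarith [min_le_left (a i) (a j), lt_min hai haj],
        by linarith [min_le_right (a i) (a j), lt_min hai haj]⟩
    have hz1 : (x i, y i + d) ∈ interior (sq (x i) (y i) (c i) (s i) (a i)) := by
      apply mem_interior_sq hui <;>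
        simp only [sub_self, zero_mul, neg_zero, zero_add, add_sub_cancel_left]
      · positivity
      · exact lt_of_le_of_lt (mul_le_of_le_one_right hd0.le hs1) hd1
      · positivity
      · exact lt_of_le_of_lt (mul_le_of_le_one_right hd0.le hc1) hd1
    have hz2 : (x i, y i + d) ∈ interior (sq (x j) (y j) (c j) (s j) (a j)) := by
      apply mem_interior_sq huj <;>
        simp only [ex, ey, sub_self, zero_mul, neg_zero, zero_add, add_sub_cancel_left]
      · positivity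
      · exact lt_of_le_of_lt (mul_le_of_le_one_right hd0.le hs2) hd2
      · positivity
      · exact lt_of_le_of_lt (mul_le_of_le_one_right hd0.le hc2) hd2
    exact Set.disjoint_left.1 (hdis hij) hz1 hz2

end Pool.Agent.P.MP_8eee4e_co
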