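import Pool.Agent.P.MP_8eee4e_co.Axis

namespace Pool.Agent.P.MP_8eee4e_co

open Set Filter Topology

lemma le_hi {x y c s a m n : ℝ} {p : ℝ × ℝ} (hp : p ∈ sq x y c s a) :
    m * p.1 + n * p.2 ≤ m * x + n * y + a * max 0 (m * c + n * s) + a * max 0 (n * c - m * s) := by
  obtain ⟨α, ⟨h1, h2⟩, β, ⟨h3, h4⟩, rfl⟩ := hp
  have g1 : α * (m * c + n * s) ≤ a * max 0 (m * c + n * s) :=
    (mul_le_mul_of_nonneg_left (le_max_right _ _) h1).trans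
      (mul_le_mul_of_nonneg_right h2 (le_max_left _ _))
  have g2 : β * (n * c - m * s) ≤ a * max 0 (n * c - m * s) :=
    (mul_le_mul_of_nonneg_left (le_max_right _ _) h3).trans
      (mul_le_mul_of_nonneg_right h4 (le_max_left _ _))
  simp only
  linarith

lemma disjoint_of_sep {S T : Set (ℝ × ℝ)} {m n g : ℝ} (hmn : 0 < m ^ 2 + n ^ 2)
    (hS : ∀ p ∈ S, m * p.1 + n * p.2 ≤ g) (hT : ∀ p ∈ T, -m * p.1 + -n * p.2 ≤ -g) :
    Disjoint (interior S) (interior T) := by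
  rw [Set.disjoint_left]
  intro p h1 h2
  have h3 := hT p (interior_subset h2)
  have hc : Tendsto (fun e : ℝ => (p.1 + e * m, p.2 + e * n)) (𝓝[>] 0) (𝓝 p) := by
    have : Continuous fun e : ℝ => (p.1 + e * m, p.2 + e * n) := by fun_prop
    have h2 := this.tendsto 0
    simp only [zero_mul, add_zero] at h2
    exact h2.mono_left nhdsWithin_le_nhds
  obtain ⟨e, he1, he2⟩ :=
    ((hc.eventually (mem_interior_iff_mem_nhds.1 h1)).and self_mem_nhdsWithin).exists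
  have h4 := hS _ he1
  have h5 : 0 < e := he2
  simp only at h4
  nlinarith [mul_pos h5 hmn]

/-- corner, direction and side of the 17 squares -/
def dat : Fin 17 → ℚ × ℚ × ℚ × ℚ × ℚ :=
  ![(0, 0, 1, 0, 51838999/203446860),
    (6690107/16953905, 0, 1, 0, 3421266/16953905),
    (10111373/16953905, 0, 1, 0, 3421266/16953905),
    (13532639/16953905, 0, 1, 0, 3421266/16953905),
    (0, 51838999/203446860, 1, 0, 49884431/203446860),
    (17976913/67815620, 9317881/50861715, 195/197, 28/197, 28468667/203446860),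
    (49884431/203446860, 69497477/203446860, 1, 0, 32225953/203446860),
    (6842532/16953905, 3421266/16953905, 1, 0, 10111373/33907810),
    (23796437/33907810, 3421266/16953905, 1, 0, 10111373/33907810),
    (0, 1/2, 1, 0, 1/4),
    (1/4, 1/2, 1, 0, 1/4),
    (1/2, 1/2, 1, 0, 1/4),
    (3/4, 1/2, 1, 0, 1/4),
    (0, 3/4, 1, 0, 1/4),
    (1/4, 3/4, 1, 0, 1/4),
    (1/2, 3/4, 1, 0, 1/4),
    (3/4, 3/4, 1, 0, 1/4)]

def hi (m n : ℚ) (d : ℚ × ℚ × ℚ × ℚ × ℚ) : ℚ :=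
  m * d.1 + n * d.2.1 + d.2.2.2.2 * max 0 (m * d.2.2.1 + n * d.2.2.2.1) +
    d.2.2.2.2 * max 0 (n * d.2.2.1 - m * d.2.2.2.1)

def dirs : List (ℚ × ℚ) :=
  [(1, 0), (-1, 0), (0, 1), (0, -1), (195, 28), (-195, -28), (-28, 195), (28, -195)]

def rsq (d : ℚ × ℚ × ℚ × ℚ × ℚ) : Set (ℝ × ℝ) :=
  sq d.1 d.2.1 d.2.2.1 d.2.2.2.1 d.2.2.2.2

lemma le_hi' (m n : ℚ) (d : ℚ × ℚ × ℚ × ℚ × ℚ) (p : ℝ × ℝ) (hp : p ∈ rsq d) :
    (m : ℝ) * p.1 + n * p.2 ≤ hi m n d := by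
  have := le_hi (m := m) (n := n) hp
  simp only [hi]
  push_cast
  exact this

lemma dat_unit : ∀ i, (dat i).2.2.1 ^ 2 + (dat i).2.2.2.1 ^ 2 = 1 := by decide +kernel

lemma dat_nonneg : ∀ i, 0 ≤ (dat i).2.2.2.2 := by decide +kernel

lemma dat_sum : 4000129 / 1000000 < ∑ i, (dat i).2.2.2.2 := by decide +kernel

lemma dat_in : ∀ i, hi 1 0 (dat i) ≤ 1 ∧ hi 0 1 (dat i) ≤ 1 ∧ hi (-1) 0 (dat i) ≤ 0 ∧
    hi 0 (-1) (dat i) ≤ 0 := by decide +kernel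

lemma dat_sep : ∀ i j, i ≠ j → ∃ w ∈ dirs, 0 < w.1 ^ 2 + w.2 ^ 2 ∧
    hi (-w.1) (-w.2) (dat j) ≤ -hi w.1 w.2 (dat i) := by decide +kernel

lemma rsq_sub (i : Fin 17) : rsq (dat i) ⊆ U := by
  intro p hp
  obtain ⟨h1, h2, h3, h4⟩ := dat_in i
  have g1 := (le_hi' 1 0 _ p hp).trans (Rat.cast_le.2 h1)
  have g2 := (le_hi' 0 1 _ p hp).trans (Rat.cast_le.2 h2)
  have g3 := (le_hi' (-1) 0 _ p hp).trans (Rat.cast_le.2 h3)
  have g4 := (le_hi' 0 (-1) _ p hp).trans (Rat.cast_le.2 h4)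
  push_cast at g1 g2 g3 g4
  exact ⟨⟨by linarith, by linarith⟩, by linarith, by linarith⟩

lemma rsq_disjoint : Pairwise fun i j : Fin 17 =>
    Disjoint (interior (rsq (dat i))) (interior (rsq (dat j))) := by
  intro i j hij
  obtain ⟨w, -, h1, h2⟩ := dat_sep i j hij
  refine disjoint_of_sep (m := w.1) (n := w.2) (g := hi w.1 w.2 (dat i)) (by exact_mod_cast h1)
    (le_hi' _ _ _) fun p hp => ?_
  have := (le_hi' _ _ _ p hp).trans (Rat.cast_le.2 h2)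
  push_cast at this
  exact this

lemma side_le {x y c s a : ℝ} (h : c ^ 2 + s ^ 2 = 1) (ha : 0 ≤ a) (hs : sq x y c s a ⊆ U) :
    a ≤ 2 := by
  have h0 : (x, y) ∈ U := hs ⟨0, ⟨le_rfl, ha⟩, 0, ⟨le_rfl, ha⟩, by simp⟩
  have h1 : (x + a * c, y + a * s) ∈ U := hs ⟨a, ⟨ha, le_rfl⟩, 0, ⟨le_rfl, ha⟩, by simp⟩
  obtain ⟨⟨g1, g2⟩, g3, g4⟩ := h0
  obtain ⟨⟨g5, g6⟩, g7, g8⟩ := h1
  simp only at g1 g2 g3 g4 g5 g6 g7 g8
  have k1 : (a * c) ^ 2 ≤ 1 := by nlinarith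
  have k2 : (a * s) ^ 2 ≤ 1 := by nlinarith
  have k3 : a ^ 2 ≤ 2 := by nlinarith
  nlinarith

end Pool.Agent.P.MP_8eee4e_co
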